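import Pool.Agent.W300.FT.Stm

/-!
Project FT, part FD2: independence for the modified process.
-/

set_option autoImplicit false

namespace Pool.Agent.W561.FT

open Pool.Agent.W300.FT MeasureTheory ProbabilityTheory

instance instCoin : IsProbabilityMeasure coin := by
  constructor
  unfold coin
  simp only [Measure.coe_add, Measure.coe_smul, Pi.add_apply, Pi.smul_apply, measure_univ,
    smul_eq_mul, mul_one, one_div]
  exact ENNReal.inv_two_add_inv_two

/-! ### uniqueness of chains -/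

theorem mt_right {V : Type} (G : SimpleGraph V) (ω : V × K → Bool) (c : ℕ × ℕ) (j : ℕ)
    (u v v' : V) (h : mt G ω c j u v) (h' : mt G ω c j u v') : v = v' := by
  obtain ⟨a1, -, a3, a4, -⟩ := h
  obtain ⟨b1, -, b3, -, -⟩ := h'
  exact a4.unique ⟨a1, a3⟩ ⟨b1, b3⟩

theorem mt_left {V : Type} (G : SimpleGraph V) (ω : V × K → Bool) (c : ℕ × ℕ) (j : ℕ)
    (u u' v : V) (h : mt G ω c j u v) (h' : mt G ω c j u' v) : u = u' := by
  obtain ⟨a1, a2, -, -, a5⟩ := h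
  obtain ⟨b1, b2, -, -, -⟩ := h'
  exact a5.unique ⟨a1.symm, a2⟩ ⟨b1.symm, b2⟩

theorem ch_unique {V : Type} (G : SimpleGraph V) (ω : V × K → Bool) (c : ℕ × ℕ)
    (γ γ' : ℕ → V) (h : Ch G ω c γ) (h' : Ch G ω c γ') (h1 : γ 1 = γ' 1) :
    ∀ j ≤ c.1 + 2, γ j = γ' j := by
  intro j
  induction j with
  | zero =>
    intro _
    have a := h 0 (by omega)
    have b := h' 0 (by omega)
    rw [zero_add] at a b
    rw [← h1] at b
    exact mt_left G ω c 0 _ _ _ a b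
  | succ j ih =>
    intro hj
    rcases Nat.eq_zero_or_pos j with h0 | h0
    · subst h0
      exact h1
    · have e := ih (by omega)
      have a := h j (by omega)
      have b := h' j (by omega)
      rw [← e] at b
      exact mt_right G ω c j _ _ _ a b

theorem fm_unique {V : Type} (G : SimpleGraph V) (ω : V × K → Bool) (c : ℕ × ℕ) (i : ℕ)
    (γ γ' : ℕ → V) (h : Ch G ω c γ) (h' : Ch G ω c γ') (h1 : γ 1 = γ' 1) :
    fm ω c i γ = fm ω c i γ' := by
  have e := ch_unique G ω c γ γ' h h' h1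
  unfold fm
  rw [e 0 (by omega), e (c.1 + 2) le_rfl]
  congr 1
  refine Finset.sum_congr rfl fun j hj => ?_
  rw [Finset.mem_Ioo] at hj
  rw [e j (by omega)]

/-! ### locality -/

/-- neighbourhood of radius 2 -/
def N2 {V : Type} (G : SimpleGraph V) (A : Set V) : Set V := {u | ∃ a ∈ A, G.dist a u ≤ 2}

theorem et_congr {V : Type} (G : SimpleGraph V) (hG : G.Connected) (A : Set V)
    (ω ω' : V × K → Bool) (h : ∀ u ∈ N2 G A, ∀ k, ω (u, k) = ω' (u, k)) (c : ℕ × ℕ) (j : ℕ)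
    (v : V) (hv : ∃ a ∈ A, G.dist a v ≤ 1) : et G ω c j v → et G ω' c j v := by
  obtain ⟨a, ha, hav⟩ := hv
  have key : ∀ u, G.Adj v u → ω (u, (c, j, 0)) = ω' (u, (c, j, 0)) := by
    intro u hu
    refine h u ⟨a, ha, ?_⟩ _
    have h1 := hG.dist_triangle (u := a) (v := v) (w := u)
    have h2 : G.dist v u = 1 := SimpleGraph.dist_eq_one_iff_adj.2 hu
    omega
  rintro ⟨u, ⟨h1, h2⟩, h3⟩
  refine ⟨u, ⟨h1, ?_⟩, ?_⟩
  · rw [← key u h1]
    exact h2
  · rintro w ⟨h4, h5⟩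
    refine h3 w ⟨h4, ?_⟩
    rw [key w h4]
    exact h5

theorem mem_N2 {V : Type} (G : SimpleGraph V) (A : Set V) (v : V)
    (hv : ∃ a ∈ A, G.dist a v ≤ 1) : v ∈ N2 G A := by
  obtain ⟨a, ha, h⟩ := hv
  exact ⟨a, ha, by omega⟩

theorem ch_congr {V : Type} (G : SimpleGraph V) (hG : G.Connected) (A : Set V)
    (ω ω' : V × K → Bool) (h : ∀ u ∈ N2 G A, ∀ k, ω (u, k) = ω' (u, k)) (c : ℕ × ℕ)
    (γ : ℕ → V) (hn : ∀ j ≤ c.1 + 2, ∃ a ∈ A, G.dist a (γ j) ≤ 1) (hc : Ch G ω c γ) :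
    Ch G ω' c γ := by
  intro j hj
  obtain ⟨a1, a2, a3, a4, a5⟩ := hc j hj
  have n1 := hn j (by omega)
  have n2 := hn (j + 1) (by omega)
  refine ⟨a1, ?_, ?_, et_congr G hG A ω ω' h c j _ n1 a4, et_congr G hG A ω ω' h c j _ n2 a5⟩
  · rw [← h _ (mem_N2 G A _ n1)]
    exact a2
  · rw [← h _ (mem_N2 G A _ n2)]
    exact a3

theorem near {V : Type} (G : SimpleGraph V) (A B : Set V)
    (hAB : ∀ a ∈ A, ∀ b ∈ B, 6 < G.dist a b)
    (ω : V × K → Bool) (c : ℕ × ℕ) (γ : ℕ → V) (h : Ch G ω c γ) (h1 : γ 1 ∈ A)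
    (hC : ∀ j ∈ Finset.Ioo 0 (c.1 + 2), γ j ∈ A ∪ B) :
    ∀ j ≤ c.1 + 2, ∃ a ∈ A, G.dist a (γ j) ≤ 1 := by
  have hA : ∀ j, 1 ≤ j → j < c.1 + 2 → γ j ∈ A := by
    intro j hj
    induction j, hj using Nat.le_induction with
    | base => exact fun _ => h1
    | succ j hj ih =>
      intro hlt
      have h2 := ih (by omega)
      have h3 : γ (j + 1) ∈ A ∪ B := hC (j + 1) (Finset.mem_Ioo.2 ⟨by omega, hlt⟩)
      rcases h3 with h3 | h3
      · exact h3
      · have h4 := hAB _ h2 _ h3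
        have h5 : G.dist (γ j) (γ (j + 1)) = 1 :=
          SimpleGraph.dist_eq_one_iff_adj.2 (h j (by omega)).1
        omega
  intro j hj
  rcases Nat.eq_zero_or_pos j with h0 | h0
  · subst h0
    refine ⟨γ 1, h1, ?_⟩
    have h5 : G.dist (γ 0) (γ 1) = 1 := SimpleGraph.dist_eq_one_iff_adj.2 (h 0 (by omega)).1
    rw [SimpleGraph.dist_comm]
    omega
  · rcases Nat.lt_or_ge j (c.1 + 2) with h2 | h2
    · exact ⟨γ j, hA j h0 h2, by simp⟩
    · have h3 : j = c.1 + 1 + 1 := by omega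
      subst h3
      refine ⟨γ (c.1 + 1), hA _ (by omega) (by omega), ?_⟩
      have h5 : G.dist (γ (c.1 + 1)) (γ (c.1 + 1 + 1)) = 1 :=
        SimpleGraph.dist_eq_one_iff_adj.2 (h (c.1 + 1) (by omega)).1
      omega

theorem fm_congr {V : Type} (G : SimpleGraph V) (A : Set V)
    (ω ω' : V × K → Bool) (h : ∀ u ∈ N2 G A, ∀ k, ω (u, k) = ω' (u, k)) (c : ℕ × ℕ) (i : ℕ)
    (γ : ℕ → V) (hn : ∀ j ≤ c.1 + 2, ∃ a ∈ A, G.dist a (γ j) ≤ 1) :
    fm ω c i γ = fm ω' c i γ := by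
  unfold fm
  rw [h _ (mem_N2 G A _ (hn 0 (by omega))), h _ (mem_N2 G A _ (hn (c.1 + 2) le_rfl))]
  congr 1
  refine Finset.sum_congr rfl fun j hj => ?_
  rw [Finset.mem_Ioo] at hj
  rw [h _ (mem_N2 G A _ (hn j (by omega)))]

theorem psi_congr {V : Type} (G : SimpleGraph V) (hG : G.Connected) (A B : Set V)
    (hAB : ∀ a ∈ A, ∀ b ∈ B, 6 < G.dist a b) (ω ω' : V × K → Bool)
    (h : ∀ u ∈ N2 G A, ∀ k, ω (u, k) = ω' (u, k)) (v : V) (hv : v ∈ A) (k : K) :
    PsiC G (A ∪ B) ω v k = PsiC G (A ∪ B) ω' v k := by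
  classical
  have h' : ∀ u ∈ N2 G A, ∀ k, ω' (u, k) = ω (u, k) := fun u hu k => (h u hu k).symm
  have hvv : ∃ a ∈ A, G.dist a v ≤ 1 := ⟨v, hv, by simp⟩
  unfold PsiC
  by_cases h0 : k.2.2 = 0
  · rw [if_pos h0, if_pos h0]
    exact h v (mem_N2 G A v hvv) k
  rw [if_neg h0, if_neg h0]
  by_cases h1 : k.2.2 = 1
  · rw [if_pos h1, if_pos h1, decide_eq_decide]
    exact ⟨et_congr G hG A ω ω' h k.1 k.2.1 v hvv, et_congr G hG A ω' ω h' k.1 k.2.1 v hvv⟩
  rw [if_neg h1, if_neg h1]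
  by_cases h2 : k.2.1 = 1 ∧ ∃ γ : ℕ → V, γ 1 = v ∧ Ch G ω k.1 γ ∧
      ∀ j ∈ Finset.Ioo 0 (k.1.1 + 2), γ j ∈ A ∪ B
  · obtain ⟨h3, γ, g1, g2, g3⟩ := id h2
    have hn := near G A B hAB ω k.1 γ g2 (by rw [g1]; exact hv) g3
    have g2' := ch_congr G hG A ω ω' h k.1 γ hn g2
    have h2' : k.2.1 = 1 ∧ ∃ γ : ℕ → V, γ 1 = v ∧ Ch G ω' k.1 γ ∧
      ∀ j ∈ Finset.Ioo 0 (k.1.1 + 2), γ j ∈ A ∪ B := ⟨h3, γ, g1, g2', g3⟩
    rw [if_pos h2, if_pos h2', decide_eq_decide]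
    have e1 := fm_congr G A ω ω' h k.1 k.2.2 γ hn
    constructor
    · rintro ⟨γ', a1, a2, a3⟩
      refine ⟨γ, g1, g2', ?_⟩
      rw [← e1, ← a3]
      exact fm_unique G ω k.1 k.2.2 γ γ' g2 a2 (by rw [g1, a1])
    · rintro ⟨γ', a1, a2, a3⟩
      refine ⟨γ, g1, g2, ?_⟩
      rw [e1, ← a3]
      exact fm_unique G ω' k.1 k.2.2 γ γ' g2' a2 (by rw [g1, a1])
  · have h2' : ¬ (k.2.1 = 1 ∧ ∃ γ : ℕ → V, γ 1 = v ∧ Ch G ω' k.1 γ ∧
        ∀ j ∈ Finset.Ioo 0 (k.1.1 + 2), γ j ∈ A ∪ B) := by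
      rintro ⟨h3, γ, g1, g2, g3⟩
      apply h2
      have hn := near G A B hAB ω' k.1 γ g2 (by rw [g1]; exact hv) g3
      exact ⟨h3, γ, g1, ch_congr G hG A ω' ω h' k.1 γ hn g2, g3⟩
    rw [if_neg h2, if_neg h2']
    exact h v (mem_N2 G A v hvv) k

/-! ### independence -/

theorem comap_le {E : Type} (N : Set E) {X : Type} (mX : MeasurableSpace X)
    (f : (E → Bool) → X) (hf : Measurable f)
    (df : ∀ ω ω' : E → Bool, (∀ e ∈ N, ω e = ω' e) → f ω = f ω')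
    (m : MeasurableSpace (E → Bool))
    (hm : ∀ e ∈ N, MeasurableSpace.comap (fun ω : E → Bool => ω e) inferInstance ≤ m) :
    MeasurableSpace.comap f mX ≤ m := by
  classical
  rw [← measurable_iff_comap_le]
  have hr : @Measurable _ _ m MeasurableSpace.pi
      (fun (ω : E → Bool) (e : E) => if e ∈ N then ω e else false) := by
    refine @measurable_pi_lambda _ _ _ m _ _ fun e => ?_
    by_cases he : e ∈ N
    · simp only [he, if_true]
      exact measurable_iff_comap_le.2 (hm e he)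
    · simp only [he, if_false]
      exact measurable_const
  have h2 : f = f ∘ (fun (ω : E → Bool) (e : E) => if e ∈ N then ω e else false) := by
    funext ω
    exact df _ _ fun e he => by simp [he]
  rw [h2]
  exact hf.comp hr

theorem indep_dep {E : Type} (NA NB : Set E) (hd : Disjoint NA NB) {X Y : Type}
    [mX : MeasurableSpace X] [mY : MeasurableSpace Y] (f : (E → Bool) → X) (g : (E → Bool) → Y)
    (hf : Measurable f) (hg : Measurable g)
    (df : ∀ ω ω' : E → Bool, (∀ e ∈ NA, ω e = ω' e) → f ω = f ω')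
    (dg : ∀ ω ω' : E → Bool, (∀ e ∈ NB, ω e = ω' e) → g ω = g ω') :
    IndepFun f g (PC E) := by
  have hi : iIndepFun (fun (e : E) (ω : E → Bool) => ω e) (PC E) := by
    unfold PC
    exact iIndepFun_infinitePi (fun _ => measurable_id)
  have h1 := indep_iSup_of_disjoint
    (m := fun e : E => MeasurableSpace.comap (fun ω : E → Bool => ω e) inferInstance)
    (fun e => (measurable_pi_apply e).comap_le) hi hd
  rw [IndepFun_iff_Indep]
  refine indep_of_indep_of_le_left (indep_of_indep_of_le_right h1 ?_) ?_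
  · refine comap_le NB mY g hg dg _ fun e he => ?_
    exact le_iSup₂ (f := fun e (_ : e ∈ NB) =>
      MeasurableSpace.comap (fun ω : E → Bool => ω e) inferInstance) e he
  · refine comap_le NA mX f hf df _ fun e he => ?_
    exact le_iSup₂ (f := fun e (_ : e ∈ NA) =>
      MeasurableSpace.comap (fun ω : E → Bool => ω e) inferInstance) e he

theorem fd2 (hm : S_MEAS) : S_FD2 := by
  intro V G A B hV hG hAB
  have hBA : ∀ b ∈ B, ∀ a ∈ A, 6 < G.dist b a := by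
    intro b hb a ha
    rw [SimpleGraph.dist_comm]
    exact hAB a ha b hb
  have hP : Measurable (PsiC G (A ∪ B)) := (hm V G (A ∪ B) hV).2
  refine indep_dep {e : V × K | e.1 ∈ N2 G A} {e : V × K | e.1 ∈ N2 G B} ?_ _ _ ?_ ?_ ?_ ?_
  · rw [Set.disjoint_left]
    rintro e ⟨a, ha, h1⟩ ⟨b, hb, h2⟩
    have h3 := hAB a ha b hb
    have h4 := hG.dist_triangle (u := a) (v := e.1) (w := b)
    have h5 : G.dist e.1 b = G.dist b e.1 := SimpleGraph.dist_comm
    omega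
  · exact measurable_pi_lambda _ fun v => (measurable_pi_apply (v : V)).comp hP
  · exact measurable_pi_lambda _ fun v => (measurable_pi_apply (v : V)).comp hP
  · intro ω ω' h
    funext v k
    exact psi_congr G hG A B hAB ω ω' (fun u hu k => h (u, k) hu) v v.2 k
  · intro ω ω' h
    funext v k
    have h1 := psi_congr G hG B A hBA ω ω' (fun u hu k => h (u, k) hu) v v.2 k
    rw [Set.union_comm B A] at h1
    exact h1

end Pool.Agent.W561.FT
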